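import Pool.Agent.N852.MM.Stm

set_option autoImplicit false

namespace Pool.Agent.N232.MM

open Matrix Module
open Pool.Agent.N852 (ic ic_add ic_sub ic_neg)
open Pool.Agent.N852.DD (Bl mem_Bl card_Bl norm_ic_ge)
open Pool.Agent.H548.BL (sep_card)

/-- a maximal separated subset -/
theorem max_sep {β : Type*} (r : β → β → Prop) (hr : ∀ a, r a a)
    (Z : Finset β) : ∃ Z1 ⊆ Z, (∀ a ∈ Z1, ∀ b ∈ Z1, a ≠ b → ¬ r a b ∨ ¬ r b a) ∧
      ∀ z ∈ Z, ∃ z1 ∈ Z1, r z z1 ∧ r z1 z := by
  classical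
  induction Z using Finset.induction_on with
  | empty => exact ⟨∅, by simp, by simp, by simp⟩
  | insert a Z ha ih =>
    obtain ⟨Z1, h1, h2, h3⟩ := ih
    by_cases h : ∃ z1 ∈ Z1, r a z1 ∧ r z1 a
    · refine ⟨Z1, h1.trans (Finset.subset_insert _ _), h2, ?_⟩
      intro z hz
      rw [Finset.mem_insert] at hz
      rcases hz with rfl | hz
      · exact h
      · exact h3 z hz
    · push Not at h
      refine ⟨insert a Z1, Finset.insert_subset_insert _ h1, ?_, ?_⟩
      · intro x hx y hy hxy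
        rw [Finset.mem_insert] at hx hy
        rcases hx with rfl | hx
        · rcases hy with rfl | hy
          · exact absurd rfl hxy
          · by_cases h4 : r x y
            · exact Or.inr (h y hy h4)
            · exact Or.inl h4
        · rcases hy with rfl | hy
          · by_cases h4 : r y x
            · exact Or.inl (h x hx h4)
            · exact Or.inr h4
          · exact h2 x hx y hy hxy
      · intro z hz
        rw [Finset.mem_insert] at hz
        rcases hz with rfl | hz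
        · exact ⟨z, Finset.mem_insert_self _ _, hr z, hr z⟩
        · obtain ⟨z1, h4, h5⟩ := h3 z hz
          exact ⟨z1, Finset.mem_insert_of_mem h4, h5⟩

/-- the sup norm and an orthogonal vector -/
theorem orth_norm {M : ℕ} (x y : Fin M → ℝ) (h : x ⬝ᵥ y = 0) : ‖x‖ ≤ M * ‖x - y‖ := by
  have h1 : x ⬝ᵥ x = x ⬝ᵥ (x - y) := by
    rw [dotProduct_sub, h, sub_zero]
  have h2 : ‖x‖ ^ 2 ≤ x ⬝ᵥ x := by
    have h3 : ∀ i, ‖x i‖ ≤ Real.sqrt (x ⬝ᵥ x) := by
      intro i
      rw [Real.norm_eq_abs]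
      apply Real.abs_le_sqrt
      unfold dotProduct
      have := Finset.single_le_sum (f := fun j => x j * x j) (fun j _ => mul_self_nonneg (x j))
        (Finset.mem_univ i)
      simpa [sq] using this
    have h4 : ‖x‖ ≤ Real.sqrt (x ⬝ᵥ x) :=
      (pi_norm_le_iff_of_nonneg (Real.sqrt_nonneg _)).2 h3
    calc ‖x‖ ^ 2 ≤ Real.sqrt (x ⬝ᵥ x) ^ 2 := pow_le_pow_left₀ (norm_nonneg _) h4 2
      _ = x ⬝ᵥ x := Real.sq_sqrt (Finset.sum_nonneg fun j _ => mul_self_nonneg (x j))
  have h3 : x ⬝ᵥ (x - y) ≤ M * (‖x‖ * ‖x - y‖) := by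
    unfold dotProduct
    calc ∑ i, x i * (x - y) i ≤ ∑ i : Fin M, ‖x‖ * ‖x - y‖ := by
          refine Finset.sum_le_sum fun i _ => ?_
          calc x i * (x - y) i ≤ |x i * (x - y) i| := le_abs_self _
            _ = ‖x i‖ * ‖(x - y) i‖ := by rw [abs_mul]; rfl
            _ ≤ ‖x‖ * ‖x - y‖ := mul_le_mul (norm_le_pi_norm x i) (norm_le_pi_norm (x - y) i)
                (norm_nonneg _) (norm_nonneg _)
      _ = M * (‖x‖ * ‖x - y‖) := by
          rw [Finset.sum_const, Finset.card_univ, Fintype.card_fin, nsmul_eq_mul]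
  rcases eq_or_lt_of_le (norm_nonneg x) with h0 | h0
  · rw [← h0]
    positivity
  · have h4 : ‖x‖ * ‖x‖ ≤ ‖x‖ * (M * ‖x - y‖) := by
      calc ‖x‖ * ‖x‖ = ‖x‖ ^ 2 := by ring
        _ ≤ M * (‖x‖ * ‖x - y‖) := h2.trans (h1 ▸ h3)
        _ = _ := by ring
    exact le_of_mul_le_mul_left h4 h0

/-- the part of `P` which is mapped to the orthogonal complement of `W` -/
theorem exists_sub {N M : ℕ} (B : (Fin N → ℝ) →ₗ[ℝ] (Fin M → ℝ)) (W : Submodule ℝ (Fin M → ℝ))
    (P : Submodule ℝ (Fin N → ℝ)) :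
    ∃ P' : Submodule ℝ (Fin N → ℝ), P' ≤ P ∧ (∀ p ∈ P', ∀ y ∈ W, B p ⬝ᵥ y = 0) ∧
      finrank ℝ P ≤ finrank ℝ P' + finrank ℝ W := by
  let Φ : P →ₗ[ℝ] (W →ₗ[ℝ] ℝ) :=
    { toFun := fun p =>
        { toFun := fun y => B (p : Fin N → ℝ) ⬝ᵥ (y : Fin M → ℝ)
          map_add' := fun a b => by simp [dotProduct_add]
          map_smul' := fun a b => by simp [dotProduct_smul] }
      map_add' := fun a b => by
        ext y
        simp [add_dotProduct]
      map_smul' := fun a b => by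
        ext y
        simp [smul_dotProduct] }
  refine ⟨(LinearMap.ker Φ).map P.subtype, ?_, ?_, ?_⟩
  · rintro x ⟨y, _, rfl⟩
    exact y.2
  · rintro x ⟨p, hp, rfl⟩ y hy
    have h1 : Φ p = 0 := hp
    have h2 := congrArg (fun g : W →ₗ[ℝ] ℝ => g ⟨y, hy⟩) h1
    exact h2
  · have h1 := LinearMap.finrank_range_add_finrank_ker Φ
    have h2 : finrank ℝ (LinearMap.range Φ) ≤ finrank ℝ (W →ₗ[ℝ] ℝ) := Submodule.finrank_le _
    have h3 : finrank ℝ (W →ₗ[ℝ] ℝ) = finrank ℝ W := Subspace.dual_finrank_eq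
    have h4 : finrank ℝ ((LinearMap.ker Φ).map P.subtype) = finrank ℝ (LinearMap.ker Φ) :=
      Submodule.finrank_map_subtype_eq _ _
    omega

/-- MM/B: integer vectors whose differences are mapped close to a subspace -/
theorem cntP : Pool.Agent.N852.MM.CntP := by
  classical
  intro N M R c A hc hA
  set r : ℝ := 2 * A * M / c + 1 with hr
  have hr1 : 1 ≤ r := by
    rw [hr]
    have : 0 ≤ 2 * A * M / c := by positivity
    linarith
  refine ⟨3 ^ N * (3 * r) ^ N, ?_, ?_⟩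
  · have h1 : (1 : ℝ) ≤ 3 ^ N := one_le_pow₀ (by norm_num)
    have h2 : (1 : ℝ) ≤ (3 * r) ^ N := one_le_pow₀ (by linarith)
    nlinarith
  intro B W P w hB hP hc' hW hw μ Z hμ hZ hd
  obtain ⟨P', hP1, hP2, hP3⟩ := exists_sub B W P
  have hcl : IsClosed (P' : Set (Fin N → ℝ)) := P'.closed_of_finiteDimensional
  have hfin : finrank ℝ ((Fin N → ℝ) ⧸ P') ≤ N - (R - w) := by
    have h1 := Submodule.finrank_quotient_add_finrank P'
    rw [finrank_fin_fun] at h1
    omega
  -- the maximal separated subset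
  obtain ⟨Z1, hZ1, hsep, hcov⟩ := max_sep (fun a b : Fin N → ℤ =>
    ‖(Submodule.Quotient.mk (ic a - ic b) : (Fin N → ℝ) ⧸ P')‖ < 1) (fun a => by
      simp) Z
  have hsym : ∀ a b : Fin N → ℤ,
      ‖(Submodule.Quotient.mk (ic a - ic b) : (Fin N → ℝ) ⧸ P')‖ =
        ‖(Submodule.Quotient.mk (ic b - ic a) : (Fin N → ℝ) ⧸ P')‖ := by
    intro a b
    have : (Submodule.Quotient.mk (ic a - ic b) : (Fin N → ℝ) ⧸ P') =
        - Submodule.Quotient.mk (ic b - ic a) := by
      rw [← Submodule.Quotient.mk_neg, neg_sub]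
    rw [this, norm_neg]
  have hsep' : ∀ a ∈ Z1, ∀ b ∈ Z1, a ≠ b →
      1 ≤ ‖(Submodule.Quotient.mk (ic a - ic b) : (Fin N → ℝ) ⧸ P')‖ := by
    intro a ha b hb hab
    rcases hsep a ha b hb hab with h | h
    · exact not_lt.1 h
    · rw [hsym]
      exact not_lt.1 h
  -- the number of elements of `Z1`
  have hcard1 : (Z1.card : ℝ) ≤ 3 ^ N * μ ^ (N - (R - w)) := by
    set S' : Finset ((Fin N → ℝ) ⧸ P') := Z1.image fun z => Submodule.Quotient.mk (ic z) with hS'
    have hinj : S'.card = Z1.card := by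
      apply Finset.card_image_of_injOn
      intro x hx y hy hxy
      by_contra hne
      have h1 := hsep' x hx y hy hne
      simp only at hxy
      rw [Submodule.Quotient.mk_sub, hxy, sub_self, norm_zero] at h1
      linarith
    have h1 := sep_card S' μ 1 one_pos (by linarith) (by
      intro x hx
      rw [hS', Finset.mem_image] at hx
      obtain ⟨z, hz, rfl⟩ := hx
      exact (Submodule.Quotient.norm_mk_le P' _).trans (hZ z (hZ1 hz))) (by
      intro x hx y hy hxy
      rw [hS', Finset.mem_image] at hx hy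
      obtain ⟨z, hz, rfl⟩ := hx
      obtain ⟨z', hz', rfl⟩ := hy
      rw [← Submodule.Quotient.mk_sub]
      apply hsep' z hz z' hz'
      rintro rfl
      exact hxy rfl)
    rw [hinj] at h1
    have h2 : 2 * μ / 1 + 1 ≤ 3 * μ := by linarith
    calc (Z1.card : ℝ) ≤ (2 * μ / 1 + 1) ^ finrank ℝ ((Fin N → ℝ) ⧸ P') := h1
      _ ≤ (3 * μ) ^ finrank ℝ ((Fin N → ℝ) ⧸ P') :=
          pow_le_pow_left₀ (by positivity) h2 _
      _ ≤ (3 * μ) ^ (N - (R - w)) := pow_le_pow_right₀ (by linarith) hfin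
      _ = 3 ^ (N - (R - w)) * μ ^ (N - (R - w)) := mul_pow _ _ _
      _ ≤ 3 ^ N * μ ^ (N - (R - w)) := by
          gcongr
          · norm_num
          · omega
  -- the number of elements near an element of `Z1`
  have hcard2 : ∀ z1 ∈ Z1, ((Z.filter fun z =>
      ‖(Submodule.Quotient.mk (ic z - ic z1) : (Fin N → ℝ) ⧸ P')‖ < 1).card : ℝ) ≤ (3 * r) ^ N := by
    intro z1 hz1
    refine le_trans ?_ (card_Bl hr1)
    norm_cast
    apply Finset.card_le_card_of_injOn (fun z => z - z1)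
    · intro z hz
      rw [Finset.mem_coe, Finset.mem_filter] at hz
      rw [Finset.mem_coe, mem_Bl (by linarith), ic_sub]
      obtain ⟨m, hm1, hm2⟩ := Submodule.Quotient.norm_mk_lt
        (Submodule.Quotient.mk (ic z - ic z1) : (Fin N → ℝ) ⧸ P')
        (ε := 1 - ‖(Submodule.Quotient.mk (ic z - ic z1) : (Fin N → ℝ) ⧸ P')‖) (by linarith [hz.2])
      have hm3 : ‖m‖ < 1 := by linarith
      rw [Submodule.Quotient.eq] at hm1
      have hp : (ic z - ic z1) - m ∈ P' := by
        have := P'.neg_mem hm1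
        rwa [neg_sub] at this
      obtain ⟨y, hy, hyA⟩ := hd z hz.1 z1 (hZ1 hz1)
      set v := ic z - ic z1 with hv
      have h1 : ‖B (v - m) - y‖ ≤ 2 * A := by
        have e : B (v - m) - y = (B v - y) - B m := by
          rw [map_sub]
          abel
        rw [e]
        refine (norm_sub_le _ _).trans ?_
        have h3 := hB m
        have h4 : A * ‖m‖ ≤ A * 1 := mul_le_mul_of_nonneg_left hm3.le hA
        linarith
      have h2 : ‖B (v - m)‖ ≤ M * ‖B (v - m) - y‖ := orth_norm _ _ (hP2 _ hp y hy)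
      have h3 : c * ‖v - m‖ ≤ M * (2 * A) :=
        (hc' _ (hP1 hp)).trans (h2.trans (mul_le_mul_of_nonneg_left h1 (Nat.cast_nonneg _)))
      have h4 : ‖v - m‖ ≤ 2 * A * M / c := by
        rw [le_div_iff₀ hc]
        linarith
      calc ‖v‖ = ‖(v - m) + m‖ := by rw [sub_add_cancel]
        _ ≤ ‖v - m‖ + ‖m‖ := norm_add_le _ _
        _ ≤ r := by rw [hr]; linarith
    · intro z _ z' _ h
      exact sub_left_injective h
  -- conclusion
  have hsub : Z ⊆ Z1.biUnion fun z1 => Z.filter fun z =>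
      ‖(Submodule.Quotient.mk (ic z - ic z1) : (Fin N → ℝ) ⧸ P')‖ < 1 := by
    intro z hz
    obtain ⟨z1, h1, h2, _⟩ := hcov z hz
    rw [Finset.mem_biUnion]
    exact ⟨z1, h1, Finset.mem_filter.2 ⟨hz, h2⟩⟩
  have h1 : (Z.card : ℝ) ≤ ∑ z1 ∈ Z1, ((Z.filter fun z =>
      ‖(Submodule.Quotient.mk (ic z - ic z1) : (Fin N → ℝ) ⧸ P')‖ < 1).card : ℝ) := by
    exact_mod_cast (Finset.card_le_card hsub).trans Finset.card_biUnion_le
  calc (Z.card : ℝ) ≤ _ := h1
    _ ≤ ∑ z1 ∈ Z1, (3 * r) ^ N := Finset.sum_le_sum hcard2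
    _ = Z1.card * (3 * r) ^ N := by rw [Finset.sum_const, nsmul_eq_mul]
    _ ≤ 3 ^ N * μ ^ (N - (R - w)) * (3 * r) ^ N :=
        mul_le_mul_of_nonneg_right hcard1 (by positivity)
    _ = _ := by ring

end Pool.Agent.N232.MM
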